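import Pool.Agent.W5h41.MA17
import Pool.Agent.R250.MC4

set_option autoImplicit false

/-!
# MP_16b0ee_an: contraction and rotation, for the whole class `Σ`

Write `h = log ψ' = log |ψ'| + i arg ψ'`, and let `log⁻ |ψ'| = - min (log |ψ'|, 0)`. The hand-in
`UniversalRange` bounds the integral of Q1 for all of `Σ` when `a < 3 / 16`. Here the expansion
(`|ψ'|` large) is left out, and the range is wider: for every `0 < a < 1 / 4` the mean of

`exp (a (2 (log⁻ |ψ'|)² + (arg ψ')²) / L)`, `L = log (R² / (R² - 1))`,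

over the circle `|z| = R` is bounded by a constant which depends on `a` only, for all `R > 1` and all
`ψ ∈ Σ`. In particular the bound of Q1 holds with `|h|` replaced by `log⁻ |ψ'|` for `a < 1 / 2`
and with `|h|` replaced by `|arg ψ'|` for `a < 1 / 4`. Nothing is assumed on `ψ`.

The proof. As in `UniversalRange` (MA1 - MA11): if
`|t|² (σ + θ)(σ + 1 + θ) < θ (1 - θ) σ (σ + 2) |1 + σ - t|²` for a `θ` in `(0, 1)`, then the mean
of `|exp (conj t h)|` is at most `C exp (σ L)`, uniformly in `Σ`.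

* (MA16, MA17) In the half plane `Re t ≤ 0` this holds with `σ = (Re t)² / 2 + (Im t)²` whenever
  `0 < (Re t)² + 4 (Im t)² ≤ 1`. For `c = σ / |t|²` one has `- Re t ≥ 2 (1 - c) |t|`, and the
  condition follows from polynomial inequalities in `(c, |t|)`, proved with Bernstein
  coefficients, with `θ = |t| / 2` for `|t| ≤ 4 / 5` and `θ = 3 / 10` for `|t| ≥ 4 / 5`.
* (MA15) A criterion as in `UniversalRange`, for a continuous positively homogeneous function
  `G` of `h` in place of `h`: a Gaussian average over `t` where `|G(h)| ≤ u_0 L`, and finitely many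
  `t` where `|G(h)| > u_0 L` (`|h| ≤ L` by Goluzin's inequality). It is used for
  `G(v) = √2 min (Re v, 0) + i Im v`, and for `v = L u` with `t = min (Re u, 0) + i Im u / 2`:
  `Re (conj t u) - σ(t) = (2 (min (Re u, 0))² + (Im u)²) / 4`.
-/

namespace Pool.Agent.Results.MP_16b0ee_an.ContractionRotation

open Pool.Agent.W677.Mar Pool.Agent.R250.MC

/-- The point `r e^{iθ}`. -/
noncomputable def circ (r θ : ℝ) : ℂ := (r : ℂ) * Complex.exp ((θ : ℂ) * Complex.I)

/-- `ψ ∈ Σ` and `h = log ψ'` (the branch vanishing at infinity), exactly as in the problem. -/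
def IsSigma (ψ h : ℂ → ℂ) : Prop :=
  DifferentiableOn ℂ ψ {z : ℂ | 1 < ‖z‖} ∧
  Set.InjOn ψ {z : ℂ | 1 < ‖z‖} ∧
  (∃ b : ℂ, Filter.Tendsto (fun z => ψ z - z) (Bornology.cobounded ℂ) (nhds b)) ∧
  DifferentiableOn ℂ h {z : ℂ | 1 < ‖z‖} ∧
  (∀ z : ℂ, 1 < ‖z‖ → Complex.exp (h z) = deriv ψ z) ∧
  Filter.Tendsto h (Bornology.cobounded ℂ) (nhds 0)

/-- The integral of Q1 with `|h|²` replaced by `2 (log⁻ |ψ'|)² + (arg ψ')²`, where
`Re h = log |ψ'|` and `Im h = arg ψ'`. -/
noncomputable def marshallCR (a R : ℝ) (h : ℂ → ℂ) : ℝ :=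
  (1 / (2 * Real.pi)) * ∫ θ in (0:ℝ)..(2 * Real.pi),
    Real.exp (a * (2 * (min (h (circ R θ)).re 0) ^ 2 + (h (circ R θ)).im ^ 2) /
      Real.log (R ^ 2 / (R ^ 2 - 1)))

/-- **Result.** For every `0 < a < 1 / 4` the mean of `exp (a (2 (log⁻ |ψ'|)² + (arg ψ')²) / L)` over
the circle `|z| = R` is bounded, uniformly for all `R > 1` and all `ψ` in `Σ`. -/
theorem result (a : ℝ) (ha0 : 0 < a) (ha : a < 1 / 4) :
    ∃ C : ℝ, ∀ R : ℝ, 1 < R → ∀ ψ h : ℂ → ℂ, IsSigma ψ h → marshallCR a R h ≤ C := by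
  obtain ⟨C, hC⟩ := Pool.Agent.W5h41.MA.half ha0 ha
  refine ⟨(1 / (2 * Real.pi)) * C, fun R hR ψ h hS => ?_⟩
  have S : IsSig ψ h := hS
  have hr : R⁻¹ ∈ Set.Ioo (0 : ℝ) 1 := ⟨by positivity, inv_lt_one_of_one_lt₀ hR⟩
  have h1 := hC _ (hat h 0) S.sg R⁻¹ hr
  have h2 := circ_int h hR (fun w => Real.exp (a * (2 * (min w.re 0) ^ 2 + w.im ^ 2) /
    Real.log (R ^ 2 / (R ^ 2 - 1))))
  rw [lam_R hR] at h1
  simp only [Pool.Agent.W5h41.MA.GG2_norm] at h1
  unfold marshallCR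
  apply mul_le_mul_of_nonneg_left _ (by positivity)
  exact h2.trans_le h1

end Pool.Agent.Results.MP_16b0ee_an.ContractionRotation
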