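import Pool.Agent.W5h49.MB.A10

set_option autoImplicit false

/-!
# MP_16b0ee_an: the strong form of Marshall's conjecture, Marshall's conjecture and the bound
# `B(t) ≤ |t|² / 4` of Binder are equivalent

For every threshold `a > 0` (the question is `a = 1`) seven statements are shown to be equivalent:
the bound of the question for every `b < a`, uniformly in `ψ ∈ Σ` and `R > 1`, or only for `R` near
`1`; the same for every single `ψ`; growth slower than every power of `R² / (R² - 1)`, along some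
radii, for self-similar `ψ` near the identity; the bound `|t|² / (4 a)` of the spectrum at complex
`t`, `|t| ≤ 2 a`, for every `ψ`, or along some radii for self-similar `ψ` near the identity; and an
explicit inequality for every `R > 1`, `ψ ∈ Σ` and `t`.

The proof.
1. (A1) The logarithm `f(ζ, x)` of `(x Y(ζ) - ζ Y(x)) / (x - ζ)`, where `Y(x) = x ψ(1/x)`, is
   holomorphic in both variables, and it is bounded by the area theorem.
2. (A2, A3, A3b) Let `k` be holomorphic in a disc of radius `> 1`, with `w exp (-k(w))` univalent. For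
   large `n` the equation `n Θ(v) = Θ(v^n) - k (v^n exp Θ(v^n))` has a small solution `Θ` in the unit
   disc; `ψ₀(z) = z exp (-Θ(1/z))` is univalent, `ψ₀(z)^n = G(ψ₀(z^n))` with `G(z) = z exp k(1/z)`, and
   `log ψ₀' = ∑_j U(T(z^(-n^j))) - Θ`, where `T = 1/ψ₀` and `exp U(w) = 1 - w k'(w)`.
3. (A4, A5) The exponential means of `log ψ₀'` grow at least like the powers of the mean of `exp U`,
   with small losses (averaging against functions of small period).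
4. (A6, A7) For `ψ ∈ Σ`, `ρ < 1`, take `k(w) = log (1 - ρw/ζ) + f(ζ, ρw)` with `|ζ| = 1 - (1-ρ)/4`. Then
   `w exp (-k(w))` is, up to a factor, `1 / (ψ(1/(ρw)) - ψ(1/ζ))`, and `U = log ψ'(1/(ρw)) - k`. The mean
   of `k` over `arg ζ` is zero, so by Jensen's inequality some `ζ` does not decrease the exponential
   mean. All constants are powers of `log (1/(1-ρ))` if `n` is about `log² / (1 - ρ)` (A8).
5. (A9, A10) Goluzin's inequality for `|t| > 2 a`, and a Gaussian average over `t`; Young's inequality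
   for the converse.
-/

namespace Pool.Agent.Results.MP_16b0ee_an.MarshallBinderEquivalence

open Pool.Agent.W5h49.MB Filter Topology

/-- The point `r e^{iθ}`. -/
noncomputable def circ (r θ : ℝ) : ℂ := (r : ℂ) * Complex.exp ((θ : ℂ) * Complex.I)

/-- `ψ ∈ Σ` and `h = log ψ'` (the branch vanishing at infinity), exactly as in the problem. -/
def IsSigma (ψ h : ℂ → ℂ) : Prop :=
  DifferentiableOn ℂ ψ {z : ℂ | 1 < ‖z‖} ∧
  Set.InjOn ψ {z : ℂ | 1 < ‖z‖} ∧
  (∃ b : ℂ, Filter.Tendsto (fun z => ψ z - z) (Bornology.cobounded ℂ) (nhds b)) ∧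
  DifferentiableOn ℂ h {z : ℂ | 1 < ‖z‖} ∧
  (∀ z : ℂ, 1 < ‖z‖ → Complex.exp (h z) = deriv ψ z) ∧
  Filter.Tendsto h (Bornology.cobounded ℂ) (nhds 0)

/-- `log (R² / (R² - 1))`, the denominator in Q1. -/
noncomputable def den (R : ℝ) : ℝ := Real.log (R ^ 2 / (R ^ 2 - 1))

/-- The integral of Q1. -/
noncomputable def marshall (a R : ℝ) (h : ℂ → ℂ) : ℝ :=
  (1 / (2 * Real.pi)) * ∫ θ in (0:ℝ)..(2 * Real.pi),
    Real.exp (a * ‖h (circ R θ)‖ ^ 2 / den R)

/-- The mean of `|exp (conj t h)| = |(ψ') ^ (conj t)|` over the circle of radius `R`. -/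
noncomputable def expMean (t : ℂ) (R : ℝ) (h : ℂ → ℂ) : ℝ :=
  (1 / (2 * Real.pi)) * ∫ θ in (0:ℝ)..(2 * Real.pi),
    Real.exp ((starRingEnd ℂ) t * h (circ R θ)).re

/-- Self-similar maps near the identity: `|ψ(z)/z - 1| ≤ κ`, and `ψ(z)^n = G(ψ(z^n))` for some
`n ≥ N` and a map `G(ζ) = ζ + O(1)`, univalent on a neighbourhood of the closed exterior disc which
contains the values of `ψ`. -/
def IsSelfSimilar (κ : ℝ) (N : ℕ) (ψ : ℂ → ℂ) : Prop :=
  (∀ z : ℂ, 1 < ‖z‖ → ‖ψ z / z - 1‖ ≤ κ) ∧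
  ∃ (n : ℕ) (ρ : ℝ) (G : ℂ → ℂ), N ≤ n ∧ 2 ≤ n ∧ 0 < ρ ∧ ρ < 1 ∧
    DifferentiableOn ℂ G {ζ : ℂ | ρ < ‖ζ‖} ∧ Set.InjOn G {ζ : ℂ | ρ < ‖ζ‖} ∧
    (∃ b : ℂ, Filter.Tendsto (fun ζ => G ζ - ζ) (Bornology.cobounded ℂ) (nhds b)) ∧
    ∀ z : ℂ, 1 < ‖z‖ → ρ < ‖ψ z‖ ∧ ψ z ^ n = G (ψ (z ^ n))

/-- **Result.** For every `a > 0`, `κ > 0` and `N` the following are equivalent.

(1) For `0 < b < a` the integral of Q1 (with `b` for `a`) is bounded for all `R > 1`, `ψ ∈ Σ`.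
(2) For `0 < b < a` it is bounded for all `R` in some `(1, R₀)` and all `ψ ∈ Σ`. (For `a = 1` this is
the strong form of Marshall's conjecture, Q1.)
(3) For `0 < b < a` and every `ψ ∈ Σ` it is bounded as `R → 1`. (`a = 1`: Marshall's conjecture.)
(4) For `0 < b < a`, every self-similar `ψ ∈ Σ` near the identity and every `ε > 0` it is at most
`(R² / (R² - 1)) ^ ε` for some `R` arbitrarily near `1`.
(5) For every `ψ ∈ Σ` and complex `t`, `|t| ≤ 2 a`, the integral means of `|ψ' ^ (conj t)|` are at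
most `(R² / (R² - 1)) ^ (|t|² / (4 a) + ε)` for `R` near `1`. (`a = 1`: Binder's conjecture.)
(6) The same for self-similar `ψ` near the identity and some `R` arbitrarily near `1`.
(7) For all `R > 1`, `ψ ∈ Σ` and complex `t`, the integral means are at most
`exp ((|t|² / (4 a)) (l + 2 log (l + 3) + 7) + 2 a)`, where `l = log (R² / (R² - 1))`. -/
theorem result (a κ : ℝ) (N : ℕ) (ha : 0 < a) (hκ : 0 < κ) :
    List.TFAE [
      -- (1)
      ∀ b : ℝ, 0 < b → b < a → ∃ C : ℝ, ∀ R : ℝ, 1 < R → ∀ ψ h : ℂ → ℂ, IsSigma ψ h →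
        marshall b R h ≤ C,
      -- (2)
      ∀ b : ℝ, 0 < b → b < a → ∃ C R₀ : ℝ, 1 < R₀ ∧ ∀ R : ℝ, 1 < R → R < R₀ →
        ∀ ψ h : ℂ → ℂ, IsSigma ψ h → marshall b R h ≤ C,
      -- (3)
      ∀ b : ℝ, 0 < b → b < a → ∀ ψ h : ℂ → ℂ, IsSigma ψ h →
        ∃ C : ℝ, ∀ᶠ R in 𝓝[>] (1 : ℝ), marshall b R h ≤ C,
      -- (4)
      ∀ b : ℝ, 0 < b → b < a → ∀ ψ h : ℂ → ℂ, IsSigma ψ h → IsSelfSimilar κ N ψ →
        ∀ ε : ℝ, 0 < ε → ∃ᶠ R in 𝓝[>] (1 : ℝ), marshall b R h ≤ Real.exp (ε * den R),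
      -- (5)
      ∀ t : ℂ, ‖t‖ ≤ 2 * a → ∀ ψ h : ℂ → ℂ, IsSigma ψ h →
        ∀ ε : ℝ, 0 < ε → ∀ᶠ R in 𝓝[>] (1 : ℝ),
          expMean t R h ≤ Real.exp ((‖t‖ ^ 2 / (4 * a) + ε) * den R),
      -- (6)
      ∀ t : ℂ, ‖t‖ ≤ 2 * a → ∀ ψ h : ℂ → ℂ, IsSigma ψ h → IsSelfSimilar κ N ψ →
        ∀ ε : ℝ, 0 < ε → ∃ᶠ R in 𝓝[>] (1 : ℝ),
          expMean t R h ≤ Real.exp ((‖t‖ ^ 2 / (4 * a) + ε) * den R),
      -- (7)
      ∀ R : ℝ, 1 < R → ∀ ψ h : ℂ → ℂ, IsSigma ψ h → ∀ t : ℂ,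
        expMean t R h ≤
          Real.exp (‖t‖ ^ 2 / (4 * a) * (den R + 2 * Real.log (den R + 3) + 7) + 2 * a)] :=
  tfae_full N ha hκ

end Pool.Agent.Results.MP_16b0ee_an.MarshallBinderEquivalence
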