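import Pool.Agent.W5h55.JU.K12

set_option autoImplicit false

/-!
# MP_16b0ee_an: Julia sets of high degree unicritical maps, full range `a < 1`

Let `f_n(w) = w^{d_n} + c_n` (`n = 0, 1, 2, ...`) be a sequence of unicritical polynomials, iterated
non-autonomously, with connected Julia sets: the exterior maps `ψ_n ∈ Σ` satisfy

`ψ_{n+1}(z^{d_n}) = ψ_n(z)^{d_n} + c_n`.

For constant sequences `ψ_n = ψ` this is the exterior map of the connected Julia set of `w^d + c`,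
periodic sequences give the Julia sets of all compositions of unicritical maps. (In other words
`ψ_0` is an infinitely iterated root transform.) The critical orbits are
`y_{n,0} = 0`, `y_{n+1,j+1} = y_{n,j}^{d_n} + c_n`. The system is *tame* if

* all `c_n` are real, or
* there is `x > 0` with `x^{d_n} + |c_n| ≤ x` for all `n`, or
* the critical orbits have slow rotation: for `1 ≤ j ≤ n` the branch of `log ((ψ_n - y_{n,j}) / z)`
  which vanishes at infinity has imaginary part at most `A + δ log⁺ (1 / |ψ_n - y_{n,j}|)`.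
  (The first two conditions imply this one with `A = π`, `δ = 0`.)

**Theorem.** If `a² (1 + δ²) < 1` (for the first two classes: if `a < 1`) there are `D` and `C`
such that for all tame systems with degrees `d_n ≥ D`, all `R > 1` and `h = log ψ_0'` the mean of
`exp (a |h|² / log (R² / (R² - 1)))` over the circle `|z| = R` is at most `C`.

So the bound of Q1 holds in its full range `0 < a < 1`, uniformly in the parameters, the degrees and
the radius. No hyperbolicity is assumed.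

The proof. Write `G_{n,j} = log ((ψ_n - y_{n,j}) / z)`, `β_n = 1 - 1 / d_n` and let `A_n` be the average over
the rotations by `d_n`-th roots of unity.

* (K3, K4) `h_n(z) = h_{n+1}(z^{d_n}) - β_n G_{n+1,1}(z^{d_n})` and
  `d_n A_n G_{n,j}(z) = G_{n+1,j+1}(z^{d_n})`; the omitted values have modulus at most `2`.
* (J2) the average over `ω^d = 1` of `|ω x - y|^{-q}` (`q < 1`) is at most
  `2 / (1 - q) max(|x|,|y|)^{-q} + d^{q-1} (max(|x|,|y|)^{d-1} / |x^d - y^d|)^q`.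
* (K5) with the weights `Φ_n = 1 + ∑_{1≤j≤n} 4^{-j} max(1, 1/|ψ_n - y_{n,j}|)^q` one has for
  `(1+δ²)^{1/2} |t| ≤ q < 1` the inequality
  `exp (-β_n Re (conj t G_{n+1,1})) A_n Φ_n ≤ λ Φ_{n+1}` with `λ` independent of the degrees; so the mean of
  `|exp (conj t h)|` over `|z| = R` is at most `C exp (L log λ / log D)`,
  `L = log (R² / (R² - 1))`.
* (K6) for small `t` a corrector `exp (-Re (conj t S_n))`, `S_n = ∑_j β (d ... d)^{-1} G_{n,j}`, makes the first
  order terms cancel in the averages `A_n`, and the constant `λ` improves to `1 + C |t|²`; so the mean is at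
  most `C exp (κ |t|² L)`, `κ = C / log D`.
* (K7, J8, K9) the recursion, and a Gaussian average over `t` for `|h| ≤ u_0 L`, together with finitely many
  `t` for `u_0 L < |h| ≤ L` (Goluzin's inequality gives `|h| ≤ L`).
* (K10, K11, K12) the rotation of real and of small systems is at most `π`.
-/

namespace Pool.Agent.Results.MP_16b0ee_an.UnicriticalJuliaSets

open Pool.Agent.W677.Mar Pool.Agent.R250.MC

/-- The point `r e^{iθ}`. -/
noncomputable def circ (r θ : ℝ) : ℂ := (r : ℂ) * Complex.exp ((θ : ℂ) * Complex.I)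

/-- `ψ ∈ Σ` and `h = log ψ'` (the branch vanishing at infinity), exactly as in the problem. -/
def IsSigma (ψ h : ℂ → ℂ) : Prop :=
  DifferentiableOn ℂ ψ {z : ℂ | 1 < ‖z‖} ∧
  Set.InjOn ψ {z : ℂ | 1 < ‖z‖} ∧
  (∃ b : ℂ, Filter.Tendsto (fun z => ψ z - z) (Bornology.cobounded ℂ) (nhds b)) ∧
  DifferentiableOn ℂ h {z : ℂ | 1 < ‖z‖} ∧
  (∀ z : ℂ, 1 < ‖z‖ → Complex.exp (h z) = deriv ψ z) ∧
  Filter.Tendsto h (Bornology.cobounded ℂ) (nhds 0)

/-- The integral of Q1. -/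
noncomputable def marshall (a R : ℝ) (h : ℂ → ℂ) : ℝ :=
  (1 / (2 * Real.pi)) * ∫ θ in (0:ℝ)..(2 * Real.pi),
    Real.exp (a * ‖h (circ R θ)‖ ^ 2 / Real.log (R ^ 2 / (R ^ 2 - 1)))

/-- `ψ n` are the exterior maps (and `h n = log (ψ n)'`) of the non-autonomous system
`w ↦ w ^ d n + c n`. -/
def IsSystem (d : ℕ → ℕ) (c : ℕ → ℂ) (ψ h : ℕ → ℂ → ℂ) : Prop :=
  (∀ n, IsSigma (ψ n) (h n)) ∧
  ∀ n z, 1 < ‖z‖ → ψ (n + 1) (z ^ d n) = ψ n z ^ d n + c n

/-- The critical orbits: `crit d c n j` (`j ≤ n`) is the point of the level `n` to which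
`f_{n-1} ∘ ... ∘ f_{n-j}` maps the critical point `0`. -/
def crit (d : ℕ → ℕ) (c : ℕ → ℂ) : ℕ → ℕ → ℂ
  | _, 0 => 0
  | 0, _ + 1 => 0
  | n + 1, j + 1 => crit d c n j ^ d n + c n

/-- The branch of `log ((ψ - v) / z)` which vanishes at infinity exists and its imaginary part is
at most `A + δ log⁺ (1 / |ψ - v|)`. -/
def SlowRotation (A δ : ℝ) (ψ : ℂ → ℂ) (v : ℂ) : Prop :=
  ∃ g : ℂ → ℂ, DifferentiableOn ℂ g {z : ℂ | 1 < ‖z‖} ∧
    (∀ z : ℂ, 1 < ‖z‖ → Complex.exp (g z) = (ψ z - v) / z) ∧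
    Filter.Tendsto g (Bornology.cobounded ℂ) (nhds 0) ∧
    ∀ z : ℂ, 1 < ‖z‖ → |(g z).im| ≤ A + δ * Real.log (max 1 ‖ψ z - v‖⁻¹)

/-- Real parameters, or small parameters, or slow rotation about the critical orbits. -/
def Tame (A δ : ℝ) (d : ℕ → ℕ) (c : ℕ → ℂ) (ψ : ℕ → ℂ → ℂ) : Prop :=
  (∀ n, (c n).im = 0) ∨ (∃ x : ℝ, 0 < x ∧ ∀ n, x ^ d n + ‖c n‖ ≤ x) ∨
  ∀ n j, 1 ≤ j → j ≤ n → SlowRotation A δ (ψ n) (crit d c n j)

theorem crit_eq (d : ℕ → ℕ) (c : ℕ → ℂ) (n : ℕ) : ∀ j, crit d c n j = Pool.Agent.W5h55.JK.crit d c n j := by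
  induction n with
  | zero => intro j; cases j <;> rfl
  | succ n ih =>
    intro j
    cases j with
    | zero => rfl
    | succ j =>
      show crit d c n j ^ d n + c n = Pool.Agent.W5h55.JK.crit d c n j ^ d n + c n
      rw [ih j]

/-- **Result.** Let `a > 0`, `A, δ ≥ 0`, `a² (1 + δ²) < 1`. There are `D` and `C` such that for every
tame system `w ↦ w ^ d n + c n` with degrees at least `D` the bound of Q1 holds for `ψ 0`, for all
`R > 1`, with the constant `C`. -/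
theorem result (a A δ : ℝ) (ha : 0 < a) (hA : 0 ≤ A) (hδ : 0 ≤ δ) (haδ : a ^ 2 * (1 + δ ^ 2) < 1) :
    ∃ (D : ℕ) (C : ℝ), ∀ (d : ℕ → ℕ) (c : ℕ → ℂ) (ψ h : ℕ → ℂ → ℂ), (∀ n, D ≤ d n) →
      IsSystem d c ψ h → Tame A δ d c ψ → ∀ R : ℝ, 1 < R → marshall a R (h 0) ≤ C := by
  have hpi := Real.pi_pos
  obtain ⟨A', hA'⟩ : ∃ A', A' = max A Real.pi := ⟨_, rfl⟩
  have hA'0 : 0 ≤ A' := by rw [hA']; exact hA.trans (le_max_left _ _)
  obtain ⟨ρ, hρ⟩ : ∃ ρ, ρ = Real.sqrt (1 + δ ^ 2) := ⟨_, rfl⟩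
  have hρ0 : 0 ≤ ρ := by rw [hρ]; exact Real.sqrt_nonneg _
  have hρ2 : ρ ^ 2 = 1 + δ ^ 2 := by rw [hρ, Real.sq_sqrt (by positivity)]
  have hρ1 : 1 ≤ ρ := by nlinarith
  have haρ : a * ρ < 1 := by
    have h1 : (a * ρ) ^ 2 < 1 := by rw [mul_pow, hρ2]; exact haδ
    have h2 : 0 ≤ a * ρ := by positivity
    nlinarith
  obtain ⟨D, C, hC⟩ := Pool.Agent.W5h55.JK.main (B := A' + 2) ha hρ1 haρ
  refine ⟨max D 2, (1 / (2 * Real.pi)) * C, fun d c ψ h hd hS hT R hR => ?_⟩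
  have J : Pool.Agent.W5h55.JK.Sys d c ψ h :=
    ⟨hS.1, fun n => (le_max_right _ _).trans (hd n), hS.2⟩
  have hrot : ∀ n j, j < n → ∃ g : ℂ → ℂ, Hol g 0 ∧
      (∀ z, 1 < ‖z‖ → Complex.exp (g z) =
        (ψ n z - Pool.Agent.W5h55.JK.crit d c n (j + 1)) / z) ∧
      ∀ z, 1 < ‖z‖ → |(g z).im| ≤
        A' + δ * Real.log (Pool.Agent.W5h55.JK.ker (ψ n) (Pool.Agent.W5h55.JK.crit d c n) j z) := by
    intro n j hj
    have hl : ∀ z, 0 ≤ δ * Real.log
        (Pool.Agent.W5h55.JK.ker (ψ n) (Pool.Agent.W5h55.JK.crit d c n) j z) := fun z =>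
      mul_nonneg hδ (Pool.Agent.W5h55.JK.log_ker_nonneg _ _ _ _)
    have hpA : Real.pi ≤ A' := by rw [hA']; exact le_max_right _ _
    rcases hT with h1 | ⟨x, hx, h1⟩ | h1
    · obtain ⟨g, h2, h3, h4⟩ := J.rot_real h1 n (j + 1)
      exact ⟨g, h2, h3, fun z hz => by have := h4 z hz; have := hl z; linarith⟩
    · obtain ⟨g, h2, h3, h4⟩ := J.rot_small hx h1 n (j + 1)
      exact ⟨g, h2, h3, fun z hz => by have := h4 z hz; have := hl z; linarith⟩
    · obtain ⟨g, h2, h3, h4, h5⟩ := h1 n (j + 1) (Nat.succ_pos j) hj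
      rw [crit_eq] at h3 h5
      refine ⟨g, ⟨h2, h4⟩, h3, fun z hz => ?_⟩
      have h6 := h5 z hz
      have h7 : A ≤ A' := by rw [hA']; exact le_max_left _ _
      rw [Pool.Agent.W5h55.JK.log_ker]
      linarith
  obtain ⟨G, hG⟩ := J.dyn hA'0 hδ hrot
  rw [← hρ] at hG
  have h1 := hC d c ψ h G (fun n => (le_max_left _ _).trans (hd n)) hG R hR
  unfold marshall
  exact mul_le_mul_of_nonneg_left h1 (by positivity)

end Pool.Agent.Results.MP_16b0ee_an.UnicriticalJuliaSets
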