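import Pool.Agent.W5h41.MA14
import Pool.Agent.R250.MC4

set_option autoImplicit false

/-!
# MP_16b0ee_an: the strong Marshall bound for the whole class `Σ`, in the range `0 < a < 3 / 16`

For every `0 < a < 3 / 16` the integral of the question is bounded by a constant which depends on `a`
only, for all `R > 1` and all `ψ` in the class `Σ`. Nothing is assumed on `ψ`.

The proof. Let `H(v) = h(1/v)`, `L = log (R² / (R² - 1))`, and let `B(t)` be the exponent of the means
of `|exp (conj t H)|`, so that the mean over `|v| = 1/R` is at most `C exp (B(t) L)`, uniformly in `Σ`.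

1. (MA4 - MA6) The area theorem holds for the powers `(ψ(1/z) - ψ(1/ζ)) ^ (-θ)`, as functions
   of `z`, for every `|ζ| < 1`. The Moebius transformation `z = (w + λ) / (1 + conj w λ)` gives
   `∑_{n ≥ 1} (n - θ) |c_n|² ≤ θ |c_0|²` for the Taylor coefficients `c_n` in `λ` of
   `(1 + conj w λ) ^ θ ((ψ - ψ) / (z - ζ)) ^ (-θ)`.
2. (MA7 - MA10) `c_n = ∑_k binom(θ - k, n - k) (conj w) ^ (n - k) (1 - |w|²) ^ k E_k(w)`, where `E_k`
   is holomorphic in `w` after multiplication by `exp (θ H + conj t H / 2)`. Integration over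
   `|w|² = x` gives quadratic inequalities for Taylor coefficients.
3. (MA1 - MA3) These are integrated over `x` with the weight `(1 - x) ^ (σ - 1)` and summed over all
   `n`. Only `E_0`, `E_1` are known, they are given by `g = exp (conj t H / 2)` and `g'`. The minimum
   over the other `E_k` is computed with ladder operators (the squares are completed in
   the order of `n`). If `|t|² (σ + θ)(σ + 1 + θ) < θ (1 - θ) σ (σ + 2) |1 + σ - t|²` for a `θ` in
   `(0, 1)`, then `B(t) ≤ σ` (MA11).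
4. (MA12) `B(2) ≤ 1`, by the area theorem.
5. (MA13) By Goluzin's inequality `|H| ≤ L`. If `B(t) ≤ κ |t|²` for small `t`, where `4 a κ < 1`,
   and if for every other `u` with `|u| ≤ 1` there is a `t` with `Re (conj t u) - B(t) > a |u|²`, then the
   integral of the question is bounded (a Gaussian average over `t` where `|H| ≤ u_0 L`, and
   finitely many `t` where `|H| > u_0 L`).
6. (MA14) The condition in 5 is checked for `a < 3 / 16`: `κ = 4 / 3` for `|t| ≤ 1 / 5`, and
   `|t| = 17 / 100, 6 / 25, 8 / 25`, and `t = 2`.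
-/

namespace Pool.Agent.Results.MP_16b0ee_an.UniversalRange

open Pool.Agent.W677.Mar Pool.Agent.R250.MC

/-- The point `r e^{iθ}`. -/
noncomputable def circ (r θ : ℝ) : ℂ := (r : ℂ) * Complex.exp ((θ : ℂ) * Complex.I)

/-- `ψ ∈ Σ` and `h = log ψ'` (the branch vanishing at infinity), exactly as in the problem. -/
def IsSigma (ψ h : ℂ → ℂ) : Prop :=
  DifferentiableOn ℂ ψ {z : ℂ | 1 < ‖z‖} ∧
  Set.InjOn ψ {z : ℂ | 1 < ‖z‖} ∧
  (∃ b : ℂ, Filter.Tendsto (fun z => ψ z - z) (Bornology.cobounded ℂ) (nhds b)) ∧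
  DifferentiableOn ℂ h {z : ℂ | 1 < ‖z‖} ∧
  (∀ z : ℂ, 1 < ‖z‖ → Complex.exp (h z) = deriv ψ z) ∧
  Filter.Tendsto h (Bornology.cobounded ℂ) (nhds 0)

/-- The integral of Q1. -/
noncomputable def marshall (a R : ℝ) (h : ℂ → ℂ) : ℝ :=
  (1 / (2 * Real.pi)) * ∫ θ in (0:ℝ)..(2 * Real.pi),
    Real.exp (a * ‖h (circ R θ)‖ ^ 2 / Real.log (R ^ 2 / (R ^ 2 - 1)))

/-- **Result.** For every `0 < a < 3 / 16` the integral of Q1 is bounded, uniformly for all `R > 1`
and all `ψ` in `Σ`. -/
theorem result (a : ℝ) (ha0 : 0 < a) (ha : a < 3 / 16) :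
    ∃ C : ℝ, ∀ R : ℝ, 1 < R → ∀ ψ h : ℂ → ℂ, IsSigma ψ h → marshall a R h ≤ C := by
  obtain ⟨C, hC⟩ := Pool.Agent.W5h41.MA.universal ha0 ha
  refine ⟨(1 / (2 * Real.pi)) * C, fun R hR ψ h hS => ?_⟩
  have S : IsSig ψ h := hS
  have hr : R⁻¹ ∈ Set.Ioo (0 : ℝ) 1 := ⟨by positivity, inv_lt_one_of_one_lt₀ hR⟩
  have h1 := hC _ (hat h 0) S.sg R⁻¹ hr
  have h2 := circ_int h hR (fun w => Real.exp (a * ‖w‖ ^ 2 / Real.log (R ^ 2 / (R ^ 2 - 1))))
  rw [lam_R hR] at h1
  unfold marshall
  apply mul_le_mul_of_nonneg_left _ (by positivity)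
  exact h2.trans_le h1

end Pool.Agent.Results.MP_16b0ee_an.UniversalRange
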